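import Mathlib

/-!
# The Jacobian of quotients of elements of `V ^ m` (PROJECT ALL, (1.2))

`jac_eq`: `g₀ ^ (n + 1) * det (D_b f_a)` is the determinant of the matrix with the rows
`(g_i, D_1 g_i, .., D_n g_i)`, `g_a = g₀ f_a`.
`jac_mem`: if `h₀ * D_b V ⊆ V ^ c` then `g₀ ^ (n + 1) * h₀ ^ n * det (D_b f_a)` belongs to
`V ^ ((n + 1) m + n c)` as soon as `g₀` and all `g₀ f_a` belong to `V ^ m`.
-/

set_option autoImplicit false

open Finset

namespace Pool.Agent.ALLh85

section fn

variable {k Ω : Type*} [Field k] [Field Ω] [Algebra k Ω]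

/-- `d` is a `k`-derivation on the subalgebra `E` (values in `Ω`). -/
structure IsDer (E : Subalgebra k Ω) (d : Ω → Ω) : Prop where
  add : ∀ x y, x ∈ E → y ∈ E → d (x + y) = d x + d y
  mul : ∀ x y, x ∈ E → y ∈ E → d (x * y) = x * d y + y * d x
  const : ∀ a : k, d (algebraMap k Ω a) = 0

variable {E : Subalgebra k Ω} {d : Ω → Ω}

lemma IsDer.smul (h : IsDer E d) (a : k) {x : Ω} (hx : x ∈ E) : d (a • x) = a • d x := by
  rw [Algebra.smul_def, h.mul _ _ (E.algebraMap_mem a) hx, h.const, mul_zero, add_zero,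
    Algebra.smul_def]

lemma IsDer.zero (h : IsDer E d) : d 0 = 0 := by
  have := h.const 0
  rwa [map_zero] at this

/-- derivations on the power of a space -/
lemma IsDer.pow_mem (h : IsDer E d) {V : Submodule k Ω} (hVE : V ≤ Subalgebra.toSubmodule E)
    (h1 : (1 : Ω) ∈ V) {h₀ : Ω} {c : ℕ} (hd : ∀ v ∈ V, h₀ * d v ∈ V ^ c) (m : ℕ) {g : Ω}
    (hg : g ∈ V ^ m) : h₀ * d g ∈ V ^ (m + c) := by
  have hpow : ∀ m, V ^ m ≤ Subalgebra.toSubmodule E := by
    intro m
    induction m with
    | zero =>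
      rw [pow_zero]
      intro x hx
      obtain ⟨a, rfl⟩ := Submodule.mem_one.1 hx
      exact E.algebraMap_mem a
    | succ m ih =>
      rw [pow_succ, Submodule.mul_le]
      intro x hx y hy
      exact E.mul_mem (ih hx) (hVE hy)
  have hmono : ∀ m, V ^ m ≤ V ^ (m + 1) := by
    intro m x hx
    rw [pow_succ, ← mul_one x]
    exact Submodule.mul_mem_mul hx h1
  induction m generalizing g with
  | zero =>
    rw [pow_zero] at hg
    obtain ⟨a, rfl⟩ := Submodule.mem_one.1 hg
    rw [h.const, mul_zero]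
    exact Submodule.zero_mem _
  | succ m ih =>
    have hg' := hg
    rw [pow_succ] at hg
    -- induction over the products
    have key : g ∈ V ^ (m + 1) ∧ h₀ * d g ∈ V ^ (m + 1 + c) := by
      induction hg using Submodule.mul_induction_on' with
      | mem_mul_mem x hx y hy =>
        refine ⟨by rw [pow_succ]; exact Submodule.mul_mem_mul hx hy, ?_⟩
        rw [h.mul x y (hpow m hx) (hVE hy), mul_add]
        refine Submodule.add_mem _ ?_ ?_
        · have h2 : h₀ * (x * d y) = x * (h₀ * d y) := by ring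
          rw [h2]
          have h3 : x * (h₀ * d y) ∈ V ^ (m + c) := by
            rw [pow_add]
            exact Submodule.mul_mem_mul hx (hd y hy)
          have h4 := hmono _ h3
          rwa [show m + c + 1 = m + 1 + c by ring] at h4
        · have h2 : h₀ * (y * d x) = (h₀ * d x) * y := by ring
          rw [h2, show m + 1 + c = (m + c) + 1 by ring, pow_succ]
          exact Submodule.mul_mem_mul (ih hx) hy
      | add x hx y hy ihx ihy =>
        obtain ⟨a1, a2⟩ := ihx (by rwa [pow_succ])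
        obtain ⟨b1, b2⟩ := ihy (by rwa [pow_succ])
        refine ⟨Submodule.add_mem _ a1 b1, ?_⟩
        rw [h.add x y (hpow _ a1) (hpow _ b1), mul_add]
        exact Submodule.add_mem _ a2 b2
    exact key.2

end fn

section det

variable {Ω : Type*} [Field Ω]

/-- `det (g_i | D_b g_i) = g₀ ^ (n + 1) det (D_b f_a)` -/
lemma jac_eq {n : ℕ} (g₀ : Ω) (dg₀ : Fin n → Ω) (f : Fin n → Ω) (df : Fin n → Fin n → Ω) :
    (Matrix.of (Fin.cons (Fin.cons g₀ dg₀ : Fin (n + 1) → Ω)
      (fun a => (Fin.cons (g₀ * f a) (fun b => g₀ * df a b + f a * dg₀ b) :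
        Fin (n + 1) → Ω)) : Fin (n + 1) → Fin (n + 1) → Ω)).det =
      g₀ ^ (n + 1) * (Matrix.of df).det := by
  let B : Matrix (Fin (n + 1)) (Fin (n + 1)) Ω :=
    Matrix.of (Fin.cons (Fin.cons g₀ dg₀ : Fin (n + 1) → Ω)
      (fun a => (Fin.cons 0 (fun b => g₀ * df a b) : Fin (n + 1) → Ω)) :
        Fin (n + 1) → Fin (n + 1) → Ω)
  rw [Matrix.det_eq_of_forall_row_eq_smul_add_const (B := B)
    (Fin.cons 0 f : Fin (n + 1) → Ω) 0 (by simp)]
  · rw [Matrix.det_succ_column_zero, Fin.sum_univ_succ]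
    have h0 : ∀ a : Fin n, B a.succ 0 = 0 := fun a => by simp [B]
    rw [Finset.sum_eq_zero fun a _ => by rw [h0 a]; ring, add_zero]
    have h1 : B.submatrix (Fin.succAbove 0) Fin.succ = g₀ • Matrix.of df := by
      ext a b
      simp [B, Matrix.submatrix_apply]
    rw [h1, Matrix.det_smul, Fintype.card_fin]
    have h2 : B 0 0 = g₀ := by simp [B]
    rw [h2]
    simp only [Fin.val_zero, pow_zero, one_mul]
    ring
  · intro i j
    refine Fin.cases ?_ (fun a => ?_) i
    · simp [B]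
    · refine Fin.cases ?_ (fun b => ?_) j
      · simp [B]
        ring
      · simp [B]

end det

section mem

variable {k Ω : Type*} [Field k] [Field Ω] [Algebra k Ω]

lemma prod_mem_pow {ι : Type*} (s : Finset ι) (V : Submodule k Ω) (e : ℕ) (f : ι → Ω)
    (hf : ∀ i ∈ s, f i ∈ V ^ e) : ∏ i ∈ s, f i ∈ V ^ (s.card * e) := by
  classical
  induction s using Finset.induction_on with
  | empty =>
    simp only [Finset.prod_empty, Finset.card_empty, zero_mul, pow_zero]
    exact Submodule.one_le.1 le_rfl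
  | insert a s ha ih =>
    rw [Finset.prod_insert ha, Finset.card_insert_of_notMem ha,
      show (s.card + 1) * e = e + s.card * e by ring, pow_add]
    exact Submodule.mul_mem_mul (hf a (Finset.mem_insert_self _ _))
      (ih fun i hi => hf i (Finset.mem_insert_of_mem hi))

/-- **(1.2)** -/
theorem jac_mem {E : Subalgebra k Ω} {V : Submodule k Ω} (hVE : V ≤ Subalgebra.toSubmodule E)
    (h1 : (1 : Ω) ∈ V) {n : ℕ} {D : Fin n → Ω → Ω} (hder : ∀ b, IsDer E (D b)) {h₀ : Ω} {c : ℕ}
    (hD : ∀ b, ∀ v ∈ V, h₀ * D b v ∈ V ^ c) {m : ℕ} {g₀ : Ω} (hg₀ : g₀ ∈ V ^ m)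
    (hg₀E : g₀ ∈ E) (f : Fin n → Ω) (hfE : ∀ a, f a ∈ E) (hf : ∀ a, g₀ * f a ∈ V ^ m) :
    g₀ ^ (n + 1) * h₀ ^ n * (Matrix.of fun a b => D b (f a)).det ∈
      V ^ ((n + 1) * m + n * c) := by
  let N : Matrix (Fin (n + 1)) (Fin (n + 1)) Ω :=
    Matrix.of (Fin.cons (Fin.cons g₀ (fun b => D b g₀) : Fin (n + 1) → Ω)
      (fun a => (Fin.cons (g₀ * f a) (fun b => g₀ * D b (f a) + f a * D b g₀) :
        Fin (n + 1) → Ω)) : Fin (n + 1) → Fin (n + 1) → Ω)
  have hN : N.det = g₀ ^ (n + 1) * (Matrix.of fun a b => D b (f a)).det :=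
    jac_eq g₀ (fun b => D b g₀) f fun a b => D b (f a)
  let s : Fin (n + 1) → Ω := Fin.cons 1 fun _ => h₀
  have hs : ∏ i, s i = h₀ ^ n := by
    rw [Fin.prod_univ_succ]
    simp [s]
  have h2 : g₀ ^ (n + 1) * h₀ ^ n * (Matrix.of fun a b => D b (f a)).det =
      (Matrix.of fun i j => s j * N i j).det := by
    rw [Matrix.det_mul_row, hs, hN]
    ring
  rw [h2, Matrix.det_apply]
  refine Submodule.sum_mem _ fun σ _ => ?_
  have hcol0 : ∀ i, s 0 * N i 0 ∈ V ^ m := by
    intro i
    refine Fin.cases ?_ (fun a => ?_) i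
    · simpa [s, N] using hg₀
    · simpa [s, N] using hf a
  have hcol : ∀ i (b : Fin n), s b.succ * N i b.succ ∈ V ^ (m + c) := by
    intro i b
    refine Fin.cases ?_ (fun a => ?_) i
    · have h3 := (hder b).pow_mem hVE h1 (hD b) m hg₀
      simpa [s, N] using h3
    · have h3 := (hder b).pow_mem hVE h1 (hD b) m (hf a)
      rw [(hder b).mul g₀ (f a) hg₀E (hfE a)] at h3
      simpa [s, N] using h3
  have key : ∏ i, (Matrix.of fun i j => s j * N i j) (σ i) i ∈ V ^ ((n + 1) * m + n * c) := by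
    rw [Fin.prod_univ_succ, show (n + 1) * m + n * c = m + n * (m + c) by ring, pow_add]
    refine Submodule.mul_mem_mul (hcol0 _) ?_
    have h4 := prod_mem_pow (Finset.univ : Finset (Fin n)) V (m + c)
      (fun b => s b.succ * N (σ b.succ) b.succ) fun b _ => hcol _ _
    rwa [Finset.card_univ, Fintype.card_fin] at h4
  rcases Int.units_eq_one_or (Equiv.Perm.sign σ) with h | h
  · rw [h, one_smul]; exact key
  · rw [h, Units.neg_smul, one_smul]; exact Submodule.neg_mem _ key

/-- a derivation of an intermediate field, extended by zero -/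
noncomputable def extD (E : IntermediateField k Ω) (D : Derivation k E E) (x : Ω) : Ω := by
  classical
  exact if hx : x ∈ E then (D ⟨x, hx⟩ : E) else 0

lemma extD_apply (E : IntermediateField k Ω) (D : Derivation k E E) (x : E) :
    extD E D (x : Ω) = (D x : E) := by
  unfold extD
  rw [dif_pos x.2]

lemma isDer_extD (E : IntermediateField k Ω) (D : Derivation k E E) :
    IsDer E.toSubalgebra (extD E D) where
  add x y hx hy := by
    have h1 := extD_apply E D ⟨x, hx⟩
    have h2 := extD_apply E D ⟨y, hy⟩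
    have h3 := extD_apply E D (⟨x, hx⟩ + ⟨y, hy⟩)
    rw [map_add] at h3
    simp only [AddMemClass.coe_add] at h1 h2 h3
    rw [h3, h1, h2]
  mul x y hx hy := by
    have h1 := extD_apply E D ⟨x, hx⟩
    have h2 := extD_apply E D ⟨y, hy⟩
    have h3 := extD_apply E D (⟨x, hx⟩ * ⟨y, hy⟩)
    rw [D.leibniz] at h3
    simp only [smul_eq_mul, AddMemClass.coe_add, MulMemClass.coe_mul] at h1 h2 h3
    rw [h3, h1, h2]
  const a := by
    have h1 := extD_apply E D (algebraMap k E a)
    rw [D.map_algebraMap] at h1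
    exact h1

/-- **(1.2)** for derivations of an intermediate field -/
theorem jac_mem_field (E : IntermediateField k Ω) {V : Submodule k Ω} (hVE : ∀ v ∈ V, v ∈ E)
    (h1 : (1 : Ω) ∈ V) {n : ℕ} (D : Fin n → Derivation k E E) {h₀ : Ω} {c : ℕ}
    (hD : ∀ b, ∀ v : E, (v : Ω) ∈ V → h₀ * (D b v : E) ∈ V ^ c) {m : ℕ} {g₀ : E}
    (hg₀ : (g₀ : Ω) ∈ V ^ m) (f : Fin n → E) (hf : ∀ a, (g₀ : Ω) * f a ∈ V ^ m) :
    (g₀ : Ω) ^ (n + 1) * h₀ ^ n * ((Matrix.of fun a b => D b (f a)).det : E) ∈
      V ^ ((n + 1) * m + n * c) := by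
  have h2 := jac_mem (E := E.toSubalgebra) (V := V) (fun v hv => hVE v hv) h1
    (D := fun b => extD E (D b)) (fun b => isDer_extD E (D b)) (h₀ := h₀) (c := c)
    (fun b v hv => by
      have h3 := hD b ⟨v, hVE v hv⟩ hv
      rwa [← extD_apply E (D b) ⟨v, hVE v hv⟩] at h3)
    hg₀ g₀.2 (fun a => (f a : Ω)) (fun a => (f a).2) hf
  have h4 : ((Matrix.of fun a b => D b (f a)).det : E) =
      (Matrix.of fun a b => extD E (D b) (f a : Ω)).det := by
    have h5 := RingHom.map_det (algebraMap E Ω) (Matrix.of fun a b => D b (f a))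
    have h6 : (algebraMap E Ω).mapMatrix (Matrix.of fun a b => D b (f a)) =
        Matrix.of fun a b => extD E (D b) (f a : Ω) := by
      ext a b
      simp only [RingHom.mapMatrix_apply, Matrix.map_apply, Matrix.of_apply]
      exact (extD_apply E (D b) (f a)).symm
    rw [h6] at h5
    exact h5
  rw [h4]
  exact h2

end mem

end Pool.Agent.ALLh85
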