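import Mathlib
import Pool.Agent.Lib.ALB.Kaehler

/-!
# Differentials of local rings (row BETA of PROJECT ALL): the part without valuations

Let `R` be a ring with field of fractions `K`, essentially generated over the perfect field `k` by
finitely many elements and by parameters whose differentials lie in the `R`-span `T₀` of finitely
many elements `e i` of `Ω[K⁄k]`, such that the maximal ideal is generated by parameters and
`R = k + 𝔪`. Then (Nakayama) all differentials of elements of `R` lie in `T₀`; if there are at most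
`trdeg` elements `e i`, they form a basis of `Ω[K⁄k]` and can be given arbitrary values.
-/

set_option autoImplicit false

namespace Pool.Agent.ALLh85

open Submodule Module KaehlerDifferential

section Core

variable {k K : Type*} [Field k] [Field K] [Algebra k K]

/-- Nakayama: the differentials of the elements of `R` lie in the `R`-span of the `e i`. -/
theorem D_mem_span (R : Subalgebra k K) (I : Ideal R) (hI : I ≤ Ideal.jacobson ⊥)
    {ι : Type*} [Finite ι] (e : ι → Ω[K⁄k]) (P : Set K)
    (hPR : ∀ g ∈ P, g ∈ R) (hP : ∀ g ∈ P, D k K g ∈ span R (Set.range e))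
    (F : Finset K) (hFR : ∀ z ∈ F, z ∈ R)
    (hgen : ∀ f ∈ R, ∃ a ∈ Algebra.adjoin k ((F : Set K) ∪ P),
      ∃ b ∈ Algebra.adjoin k ((F : Set K) ∪ P), b⁻¹ ∈ R ∧ f = a / b)
    (hdec : ∀ f : R, ∃ c : k, f - algebraMap k R c ∈ Ideal.span {g : R | (g : K) ∈ P ∧ g ∈ I}) :
    ∀ f ∈ R, D k K f ∈ span R (Set.range e) := by
  set T₀ : Submodule R Ω[K⁄k] := span R (Set.range e) with hT₀
  set T : Submodule R Ω[K⁄k] := span R (Set.range e ∪ D k K '' (F : Set K)) with hT
  have hT₀T : T₀ ≤ T := span_mono Set.subset_union_left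
  have hAR : Algebra.adjoin k ((F : Set K) ∪ P) ≤ R := by
    rw [Algebra.adjoin_le_iff]
    rintro z (hz | hz)
    · exact hFR z hz
    · exact hPR z hz
  -- the differentials of `R` lie in `T`
  have hA : ∀ a ∈ Algebra.adjoin k ((F : Set K) ∪ P), D k K a ∈ T := by
    intro a ha
    induction ha using Algebra.adjoin_induction with
    | mem x hx =>
      rcases hx with hx | hx
      · exact subset_span (Or.inr ⟨x, hx, rfl⟩)
      · exact hT₀T (hP x hx)
    | algebraMap c => rw [Derivation.map_algebraMap]; exact T.zero_mem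
    | add x y _ _ hx hy => rw [map_add]; exact T.add_mem hx hy
    | mul x y hx' hy' hx hy =>
      rw [Derivation.leibniz]
      exact T.add_mem (T.smul_mem ⟨x, hAR hx'⟩ hy) (T.smul_mem ⟨y, hAR hy'⟩ hx)
  have hR : ∀ f ∈ R, D k K f ∈ T := by
    intro f hf
    obtain ⟨a, ha, b, hb, hbR, rfl⟩ := hgen f hf
    rw [div_eq_mul_inv, Derivation.leibniz, Derivation.leibniz_inv]
    refine T.add_mem (T.smul_mem ⟨a, hAR ha⟩ ?_) (T.smul_mem ⟨b⁻¹, hbR⟩ (hA a ha))
    exact T.smul_mem ⟨- b⁻¹ ^ 2, R.neg_mem (R.pow_mem hbR 2)⟩ (hA b hb)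
  -- `D f ∈ T₀ + I T`
  have hI1 : ∀ f : R, f ∈ Ideal.span {g : R | (g : K) ∈ P ∧ g ∈ I} →
      D k K (f : K) ∈ T₀ ⊔ I • T := by
    intro f hf
    induction hf using Submodule.span_induction with
    | mem g hg => exact Submodule.mem_sup_left (hP g hg.1)
    | zero => rw [Subalgebra.coe_zero, map_zero]; exact Submodule.zero_mem _
    | add x y _ _ hx hy => rw [Subalgebra.coe_add, map_add]; exact Submodule.add_mem _ hx hy
    | smul a x hx' hx =>
      rw [smul_eq_mul, Subalgebra.coe_mul, Derivation.leibniz]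
      refine Submodule.add_mem _ (Submodule.smul_mem _ a hx) ?_
      have hxI : x ∈ I := by
        refine (Submodule.span_le.2 ?_ : Ideal.span {g : R | (g : K) ∈ P ∧ g ∈ I} ≤ I) hx'
        rintro g hg
        exact hg.2
      exact Submodule.mem_sup_right (Submodule.smul_mem_smul hxI (hR a a.2))
  have hI2 : ∀ f ∈ R, D k K f ∈ T₀ ⊔ I • T := by
    intro f hf
    obtain ⟨c, hc⟩ := hdec ⟨f, hf⟩
    have h1 := hI1 _ hc
    rw [Subalgebra.coe_sub] at h1
    have h2 : ((algebraMap k R c : R) : K) = algebraMap k K c := rfl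
    rw [h2, map_sub, Derivation.map_algebraMap, sub_zero] at h1
    exact h1
  have hTT : T ≤ T₀ ⊔ I • T := by
    rw [hT, span_le]
    rintro x (hx | ⟨z, hz, rfl⟩)
    · exact Submodule.mem_sup_left (subset_span hx)
    · exact hI2 z (hFR z hz)
  have hfg : T.FG := Submodule.fg_span ((Set.finite_range e).union (F.finite_toSet.image _))
  have h := Submodule.le_of_le_smul_of_le_jacobson_bot hfg hI hTT
  exact fun f hf => h (hR f hf)

theorem form_mem {M : Type*} [AddCommGroup M] [Module K M] (R : Subalgebra k K) {ι : Type*}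
    (e : ι → M) (l : M →ₗ[K] K) (hl : ∀ i, l (e i) ∈ R) (x : M)
    (hx : x ∈ span R (Set.range e)) : l x ∈ R := by
  induction hx using Submodule.span_induction with
  | mem x hx =>
    obtain ⟨i, rfl⟩ := hx
    exact hl i
  | zero => rw [map_zero]; exact R.zero_mem
  | add x y _ _ hx hy => rw [map_add]; exact R.add_mem hx hy
  | smul a x _ hx =>
    have h4 : (a • x : M) = (a : K) • x := rfl
    rw [h4, map_smul]
    exact R.mul_mem a.2 hx

theorem span_top_of_frac (R : Subalgebra k K)
    (hK : ∀ z : K, ∃ a ∈ R, ∃ b ∈ R, z = a / b)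
    {ι : Type*} (e : ι → Ω[K⁄k]) (hR : ∀ f ∈ R, D k K f ∈ span R (Set.range e)) :
    span K (Set.range e) = ⊤ := by
  have h1 : ∀ f ∈ R, D k K f ∈ span K (Set.range e) := by
    intro f hf
    exact Submodule.span_le_restrictScalars R K _ (hR f hf)
  rw [eq_top_iff, ← KaehlerDifferential.span_range_derivation k K, span_le]
  rintro _ ⟨z, rfl⟩
  obtain ⟨a, ha, b, hb, rfl⟩ := hK z
  rw [div_eq_mul_inv, Derivation.leibniz, Derivation.leibniz_inv]
  exact Submodule.add_mem _ (Submodule.smul_mem _ _ (Submodule.smul_mem _ _ (h1 b hb)))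
    (Submodule.smul_mem _ _ (h1 a ha))

theorem exists_form0 {M : Type*} [AddCommGroup M] [Module K M]
    {ι : Type*} (e : ι → M) (htop : span K (Set.range e) = ⊤) (hli : LinearIndependent K e)
    (t : ι → K) : ∃ l : M →ₗ[K] K, ∀ i, l (e i) = t i := by
  refine ⟨(Basis.mk hli htop.ge).constr K t, fun i => ?_⟩
  have h := Basis.mk_apply hli htop.ge i
  rw [← h, Basis.constr_basis]

end Core

section CoreU

universe u

variable {k K : Type u} [Field k] [Field K] [Algebra k K]

/-- The dimension of the space of differentials is at least the transcendence degree. -/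
theorem le_finrank_kaehler [Algebra.EssFiniteType k K] (n : ℕ) (hn : Algebra.trdeg k K = n) :
    n ≤ finrank K Ω[K⁄k] := by
  classical
  obtain ⟨b, hbs, hspan, hli⟩ := exists_linearIndependent K (Set.range (D k K))
  rw [KaehlerDifferential.span_range_derivation] at hspan
  have hfin : FiniteDimensional K Ω[K⁄k] := inferInstance
  obtain ⟨B⟩ : Nonempty (Basis b K Ω[K⁄k]) :=
    ⟨Basis.mk hli (by rw [Subtype.range_coe_subtype, Set.ofPred_mem_eq, hspan])⟩
  have hcard : Cardinal.mk b = (finrank K Ω[K⁄k] : ℕ) := by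
    have h1 := Module.mk_finrank_eq_card_basis B
    exact h1.symm
  choose t ht using fun y : b => hbs y.2
  have hD : D k K '' Set.range t = b := by
    ext y
    constructor
    · rintro ⟨_, ⟨z, rfl⟩, rfl⟩
      rw [ht]; exact z.2
    · intro hy
      exact ⟨t ⟨y, hy⟩, ⟨_, rfl⟩, ht ⟨y, hy⟩⟩
  have hsep := ALB.separable_of_span_D (k := k) (Set.range t) (by rw [hD, hspan])
  have halg : Algebra.IsAlgebraic (Algebra.adjoin k (Set.range t)) K := by
    have h1 : Algebra.IsAlgebraic (IntermediateField.adjoin k (Set.range t)) K := inferInstance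
    constructor
    intro x
    rw [← IntermediateField.isAlgebraic_adjoin_iff]
    exact h1.isAlgebraic x
  have h2 := Algebra.IsAlgebraic.trdeg_le_cardinalMk k (Set.range t)
  rw [hn] at h2
  have h3 := h2.trans Cardinal.mk_range_le
  rw [hcard] at h3
  exact_mod_cast h3

/-- At most `trdeg` elements spanning the differentials are independent. -/
theorem indep_of_span [Algebra.EssFiniteType k K] {ι : Type*} [Fintype ι] (n : ℕ)
    (hn : Algebra.trdeg k K = n) (hι : Fintype.card ι ≤ n) (e : ι → Ω[K⁄k])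
    (htop : span K (Set.range e) = ⊤) : LinearIndependent K e := by
  have hfin : n ≤ finrank K Ω[K⁄k] := le_finrank_kaehler n hn
  refine linearIndependent_of_top_le_span_of_card_eq_finrank htop.ge ?_
  refine le_antisymm (hι.trans hfin) ?_
  have h2 := finrank_range_le_card (R := K) e
  rwa [Set.finrank, htop, finrank_top] at h2

/-- The values of a linear form on a small family spanning the differentials of `R` are
arbitrary. -/
theorem exists_form [Algebra.EssFiniteType k K] (R : Subalgebra k K)
    (hK : ∀ z : K, ∃ a ∈ R, ∃ b ∈ R, z = a / b)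
    {ι : Type*} [Fintype ι] (n : ℕ) (hn : Algebra.trdeg k K = n) (hι : Fintype.card ι ≤ n)
    (e : ι → Ω[K⁄k]) (hR : ∀ f ∈ R, D k K f ∈ span R (Set.range e)) (t : ι → K)
    (ht : ∀ i, t i ∈ R) :
    ∃ l : Ω[K⁄k] →ₗ[K] K, (∀ i, l (e i) = t i) ∧ ∀ f ∈ R, l (D k K f) ∈ R := by
  have htop := span_top_of_frac R hK e hR
  obtain ⟨l, hl⟩ := exists_form0 e htop (indep_of_span n hn hι e htop) t
  exact ⟨l, hl, fun f hf => form_mem R e l (fun i => by rw [hl]; exact ht i) _ (hR f hf)⟩

end CoreU

/-! ## Groups of values -/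

/-- A basis of a finitely generated group of values contained in the `ℚ`-span of `r` values. -/
theorem exists_basis_fg {𝕂 : Type*} [Field 𝕂] [CharZero 𝕂] (Γ : AddSubgroup 𝕂) (hΓ : Γ.FG)
    {r : ℕ} (w : Fin r → 𝕂) (hw : ∀ γ ∈ Γ, γ ∈ Submodule.span ℚ (Set.range w)) :
    ∃ (m : ℕ) (lam : Fin m → 𝕂), m ≤ r ∧ (∀ i, lam i ∈ Γ) ∧
      ∀ γ ∈ Γ, ∃ c : Fin m → ℤ, γ = ∑ i, c i • lam i := by
  classical
  have hfin : Module.Finite ℤ Γ := by
    have h1 : AddGroup.FG Γ := (AddGroup.fg_iff_addSubgroup_fg Γ).2 hΓ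
    exact Module.Finite.iff_addGroup_fg.2 h1
  have htf : Module.IsTorsionFree ℤ Γ := inferInstance
  have hfree : Module.Free ℤ Γ := inferInstance
  let b := Module.finBasis ℤ Γ
  refine ⟨_, fun i => (b i : 𝕂), ?_, fun i => (b i).2, ?_⟩
  · have h1 : LinearIndependent ℤ fun i => ((b i : Γ) : 𝕂) := by
      have h2 := b.linearIndependent
      exact h2.map' (Γ.subtype.toIntLinearMap) (by
        rw [LinearMap.ker_eq_bot]
        exact Subtype.val_injective)
    have h3 : LinearIndependent ℚ fun i => ((b i : Γ) : 𝕂) :=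
      (LinearIndependent.iff_fractionRing ℤ ℚ).1 h1
    have h4 : LinearIndependent ℚ (fun i => (⟨b i, hw _ (b i).2⟩ :
        Submodule.span ℚ (Set.range w))) := by
      refine LinearIndependent.of_comp (Submodule.subtype _) ?_
      exact h3
    have hf : FiniteDimensional ℚ (Submodule.span ℚ (Set.range w)) :=
      FiniteDimensional.span_of_finite ℚ (Set.finite_range w)
    have h5 := h4.fintype_card_le_finrank
    rw [Fintype.card_fin] at h5
    refine h5.trans ?_
    have h6 := finrank_range_le_card (R := ℚ) w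
    rwa [Fintype.card_fin] at h6
  · intro γ hγ
    refine ⟨fun i => b.repr ⟨γ, hγ⟩ i, ?_⟩
    have h1 := congrArg (Γ.subtype) (b.sum_repr ⟨γ, hγ⟩)
    rw [map_sum] at h1
    exact h1.symm.trans (Finset.sum_congr rfl fun i _ => by rw [map_zsmul]; rfl)

end Pool.Agent.ALLh85
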