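import Mathlib

/-!
# Small logarithmic support (PROJECT ALL, (1.3))
-/

set_option autoImplicit false

open Finset MvPolynomial

namespace Pool.Agent.ALLh85

/-- the determinant of a matrix whose entries have degree at most one in a variable, and degree
zero outside one row, has degree at most one in this variable -/
lemma degreeOf_det_le {r : ℕ} {σ K : Type*} [CommRing K] (A : Matrix (Fin r) (Fin r)
    (MvPolynomial σ K)) (x : σ) (k₀ : Fin r) (h0 : ∀ k m, k ≠ k₀ → degreeOf x (A k m) = 0)
    (h1 : ∀ m, degreeOf x (A k₀ m) ≤ 1) : degreeOf x A.det ≤ 1 := by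
  classical
  rw [Matrix.det_apply]
  refine (degreeOf_sum_le x _ _).trans (Finset.sup_le fun g _ => ?_)
  have key : degreeOf x (∏ i, A (g i) i) ≤ 1 := by
    refine (degreeOf_prod_le x _ _).trans ?_
    rw [← Finset.sum_erase_add _ _ (Finset.mem_univ (g.symm k₀))]
    have h2 : ∑ i ∈ univ.erase (g.symm k₀), degreeOf x (A (g i) i) = 0 := by
      refine Finset.sum_eq_zero fun i hi => h0 _ _ fun h => ?_
      exact (Finset.ne_of_mem_erase hi) (by rw [← h, Equiv.symm_apply_apply])
    rw [h2, zero_add, Equiv.apply_symm_apply]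
    exact h1 _
  rcases Int.units_eq_one_or (Equiv.Perm.sign g) with h | h
  · rw [h, one_smul]; exact key
  · rw [h, Units.neg_smul, one_smul]
    rw [show -(∏ i, A (g i) i) = C (-1 : K) * ∏ i, A (g i) i by rw [C_neg, C_1, neg_one_mul]]
    refine (degreeOf_mul_le x _ _).trans ?_
    rw [degreeOf_C, zero_add]
    exact key

/-- a spanning family contains `r` independent members as soon as the dimension is at least `r` -/
lemma exists_ind {K V ι : Type*} [Field K] [AddCommGroup V] [Module K V] [Finite ι] (v : ι → V)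
    {r : ℕ} (hr : r ≤ Module.finrank K (Submodule.span K (Set.range v))) :
    ∃ i : Fin r → ι, LinearIndependent K (v ∘ i) := by
  obtain ⟨κ, a, ha, hsp, hli⟩ := exists_linearIndependent' K v
  have : Finite κ := Finite.of_injective a ha
  have : Fintype κ := Fintype.ofFinite κ
  have h1 : Module.finrank K (Submodule.span K (Set.range (v ∘ a))) = Fintype.card κ :=
    finrank_span_eq_card hli
  rw [← hsp, h1] at hr
  obtain ⟨f⟩ : Nonempty (Fin r ↪ κ) :=
    Function.Embedding.nonempty_of_card_le (by rw [Fintype.card_fin]; exact hr)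
  exact ⟨a ∘ f, hli.comp f f.injective⟩

/-- two determinants which are affine in the rows can be made nonzero with coefficients in the
prime field -/
lemma exists_coeff {p r : ℕ} (hp3 : 3 ≤ p) {K : Type*} [Field K] [CharP K p]
    (A B : Matrix (Fin r) (Fin r) K) (hA : A.det ≠ 0) (D : Matrix (Fin r) (Fin r) K) :
    ∃ α : Fin r → Fin r → ℤ,
      (Matrix.of fun k m => A k m + ∑ l, (α k l : K) * B l m).det ≠ 0 ∧
      (Matrix.of fun k m => D k m + (α k m : K)).det ≠ 0 := by
  classical
  let P₁ : Matrix (Fin r) (Fin r) (MvPolynomial (Fin r × Fin r) K) :=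
    Matrix.of fun k m => C (A k m) + ∑ l, X (k, l) * C (B l m)
  let P₂ : Matrix (Fin r) (Fin r) (MvPolynomial (Fin r × Fin r) K) :=
    Matrix.of fun k m => C (D k m) + X (k, m)
  have e₁ : ∀ x : Fin r × Fin r → K, eval x P₁.det =
      (Matrix.of fun k m => A k m + ∑ l, x (k, l) * B l m).det := by
    intro x
    rw [RingHom.map_det]
    congr 1
    ext k m
    simp [P₁]
  have e₂ : ∀ x : Fin r × Fin r → K, eval x P₂.det =
      (Matrix.of fun k m => D k m + x (k, m)).det := by
    intro x
    rw [RingHom.map_det]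
    congr 1
    ext k m
    simp [P₂]
  have n₁ : P₁.det ≠ 0 := by
    intro h
    have h1 := e₁ 0
    rw [h, map_zero] at h1
    apply hA
    rw [← Matrix.det_transpose]
    have h2 : (Matrix.of fun k m => A k m + ∑ l, (0 : Fin r × Fin r → K) (k, l) * B l m) = A := by
      ext k m; simp
    rw [h2] at h1
    rw [Matrix.det_transpose]
    exact h1.symm
  have n₂ : P₂.det ≠ 0 := by
    intro h
    have h1 := e₂ fun q => (if q.1 = q.2 then 1 else 0) - D q.1 q.2
    rw [h, map_zero] at h1
    have h2 : (Matrix.of fun k m => D k m + ((if k = m then (1 : K) else 0) - D k m)) = 1 := by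
      ext k m
      rw [Matrix.of_apply, Matrix.one_apply]
      ring
    rw [h2, Matrix.det_one] at h1
    exact zero_ne_one h1
  have hn : P₁.det * P₂.det ≠ 0 := mul_ne_zero n₁ n₂
  -- the prime field
  let S : Finset K := (Finset.range p).image fun a : ℕ => (a : K)
  have hS : S.card = p := by
    rw [Finset.card_image_of_injOn, Finset.card_range]
    intro a ha b hb h
    have ha' : a < p := Finset.mem_range.1 ha
    have hb' : b < p := Finset.mem_range.1 hb
    have h2 := (CharP.natCast_eq_natCast K p (a := a) (b := b)).1 h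
    rw [Nat.ModEq, Nat.mod_eq_of_lt ha', Nat.mod_eq_of_lt hb'] at h2
    exact h2
  have hdeg : ∀ q : Fin r × Fin r, degreeOf q (P₁.det * P₂.det) < (S : Finset K).card := by
    intro q
    have d₁ : degreeOf q P₁.det ≤ 1 := by
      refine degreeOf_det_le P₁ q q.1 (fun k m hk => ?_) fun m => ?_
      · refine Nat.le_zero.1 ((degreeOf_add_le q _ _).trans ?_)
        rw [degreeOf_C]
        refine max_le le_rfl ((degreeOf_sum_le q _ _).trans (Finset.sup_le fun l _ => ?_))
        refine (degreeOf_mul_le q _ _).trans ?_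
        rw [degreeOf_C, add_zero, degreeOf_X, if_neg]
        intro h
        exact hk (by rw [h])
      · refine (degreeOf_add_le q _ _).trans ?_
        rw [degreeOf_C]
        refine max_le (Nat.zero_le _)
          ((degreeOf_sum_le q _ _).trans (Finset.sup_le fun l _ => ?_))
        refine (degreeOf_mul_le q _ _).trans ?_
        rw [degreeOf_C, add_zero, degreeOf_X]
        split_ifs <;> omega
    have d₂ : degreeOf q P₂.det ≤ 1 := by
      refine degreeOf_det_le P₂ q q.1 (fun k m hk => ?_) fun m => ?_
      · refine Nat.le_zero.1 ((degreeOf_add_le q _ _).trans ?_)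
        rw [degreeOf_C, degreeOf_X, if_neg]
        · exact max_le le_rfl le_rfl
        · intro h
          exact hk (by rw [h])
      · refine (degreeOf_add_le q _ _).trans ?_
        rw [degreeOf_C, degreeOf_X]
        split_ifs <;> simp
    have := degreeOf_mul_le q P₁.det P₂.det
    omega
  by_contra hcon
  push Not at hcon
  apply hn
  refine eq_zero_of_eval_zero_at_prod_finset _ (fun _ => S) hdeg fun x hx => ?_
  have hx' : ∀ q, ∃ a : ℕ, (a : K) = x q := fun q => by
    obtain ⟨a, -, ha⟩ := Finset.mem_image.1 (hx q)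
    exact ⟨a, ha⟩
  choose a ha using hx'
  rw [map_mul]
  by_cases h : eval x P₁.det = 0
  · rw [h, zero_mul]
  · have h2 := hcon (fun k l => (a (k, l) : ℤ)) (by
      rw [e₁] at h
      intro h3
      apply h
      rw [← h3]
      congr 1
      ext k m
      simp only [Matrix.of_apply, Int.cast_natCast, ha])
    rw [e₂]
    have h3 : (Matrix.of fun k m => D k m + x (k, m)).det = 0 := by
      rw [← h2]
      congr 1
      ext k m
      simp only [Matrix.of_apply, Int.cast_natCast, ha]
    rw [h3, mul_zero]

/-- **Small logarithmic support.** -/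
theorem log_supp {p r : ℕ} (hp : p.Prime) (hp3 : 3 ≤ p) {K Om ι : Type*} [Field K] [CharP K p]
    [AddCommGroup Om] [Module K Om] [Fintype ι] [DecidableEq ι] (μ : ι → Fin r → ℤ)
    (hμ : Submodule.span ℤ (Set.range μ) = ⊤) (δ : ι → Om)
    (hδ : r ≤ Module.finrank K (Submodule.span K (Set.range δ))) :
    ∃ (e : Fin r → ι → ℤ) (E : Finset ι), E.card ≤ 2 * r ∧
      (∀ k, ∀ j ∉ E, (p : ℤ) ∣ e k j) ∧ (∀ k, ∑ j, e k j • μ j = Pi.single k 1) ∧
      LinearIndependent K (fun k => ∑ j, (e k j : K) • δ j) := by
  classical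
  -- integral coordinates
  have hcoord : ∀ w : Fin r → ℤ, ∃ c : ι → ℤ, ∑ j, c j • μ j = w := fun w => by
    have hw : w ∈ Submodule.span ℤ (Set.range μ) := by rw [hμ]; exact Submodule.mem_top
    exact (Submodule.mem_span_range_iff_exists_fun ℤ).1 hw
  let μK : ι → Fin r → K := fun j m => (μ j m : K)
  have hspan : Submodule.span K (Set.range μK) = ⊤ := by
    rw [eq_top_iff]
    intro w _
    have h1 : ∀ m : Fin r, (Pi.single m 1 : Fin r → K) ∈ Submodule.span K (Set.range μK) := by
      intro m
      obtain ⟨c, hc⟩ := hcoord (Pi.single m 1)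
      have h2 : (Pi.single m 1 : Fin r → K) = ∑ j, (c j : K) • μK j := by
        ext i
        have h3 := congrFun hc i
        simp only [Finset.sum_apply, Pi.smul_apply, smul_eq_mul] at h3
        simp only [Finset.sum_apply, Pi.smul_apply, smul_eq_mul, μK]
        have h4 : ((∑ j, c j * μ j i : ℤ) : K) = ((Pi.single m 1 : Fin r → ℤ) i : ℤ) := by
          rw [h3]
        push_cast at h4
        rw [h4]
        by_cases him : i = m
        · subst him; simp
        · simp [him]
      rw [h2]
      exact Submodule.sum_mem _ fun j _ =>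
        Submodule.smul_mem _ _ (Submodule.subset_span ⟨j, rfl⟩)
    have h2 : w = ∑ m, w m • (Pi.single m 1 : Fin r → K) := by
      ext i
      simp [Finset.sum_apply, Pi.single_apply]
    rw [h2]
    exact Submodule.sum_mem _ fun m _ => Submodule.smul_mem _ _ (h1 m)
  obtain ⟨t₁, ht₁⟩ := exists_ind μK (r := r) (by rw [hspan]; simp)
  obtain ⟨t₂, ht₂⟩ := exists_ind δ hδ
  -- functionals dual to the second family
  have hinj : LinearMap.ker (Fintype.linearCombination K (δ ∘ t₂)) = ⊥ :=
    LinearMap.ker_eq_bot.2 ht₂.fintypeLinearCombination_injective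
  obtain ⟨g, hg⟩ := LinearMap.exists_leftInverse_of_injective _ hinj
  have hgd : ∀ l, g (δ (t₂ l)) = Pi.single l 1 := fun l => by
    have h1 := LinearMap.congr_fun hg (Pi.single l 1)
    simp only [LinearMap.comp_apply, Fintype.linearCombination_apply, LinearMap.id_apply] at h1
    rw [← h1]
    congr 1
    rw [Finset.sum_eq_single l]
    · simp
    · intro b _ hb; simp [hb]
    · intro h; exact absurd (Finset.mem_univ l) h
  have hA : (Matrix.of fun k m => μK (t₁ k) m : Matrix (Fin r) (Fin r) K).det ≠ 0 := by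
    have h1 : LinearIndependent K (Matrix.of fun k m => μK (t₁ k) m).row := ht₁
    exact ((Matrix.isUnit_iff_isUnit_det _).1
      (Matrix.linearIndependent_rows_iff_isUnit.1 h1)).ne_zero
  obtain ⟨α, hα₁, hα₂⟩ := exists_coeff hp3 (Matrix.of fun k m => μK (t₁ k) m)
    (Matrix.of fun l m => μK (t₂ l) m) hA (Matrix.of fun k m => g (δ (t₁ k)) m)
  -- the exponents before normalisation
  let e₀ : Fin r → ι → ℤ := fun k => Pi.single (t₁ k) 1 + ∑ l, α k l • Pi.single (t₂ l) 1
  let W : Matrix (Fin r) (Fin r) ℤ := Matrix.of fun k => ∑ j, e₀ k j • μ j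
  have hW : ∀ k, W k = μ (t₁ k) + ∑ l, α k l • μ (t₂ l) := by
    intro k
    change ∑ j, e₀ k j • μ j = _
    have h1 : ∀ j, e₀ k j • μ j = (Pi.single (t₁ k) (1 : ℤ) : ι → ℤ) j • μ j +
        ∑ l, α k l • ((Pi.single (t₂ l) (1 : ℤ) : ι → ℤ) j • μ j) := by
      intro j
      simp only [e₀, Pi.add_apply, Finset.sum_apply, Pi.smul_apply, add_smul, Finset.sum_smul,
        smul_assoc]
    rw [Finset.sum_congr rfl fun j _ => h1 j, Finset.sum_add_distrib, Finset.sum_comm]
    congr 1
    · simp [Pi.single_apply]
    · refine Finset.sum_congr rfl fun l _ => ?_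
      rw [← Finset.smul_sum]
      simp [Pi.single_apply]
  have hWK : (W.map (Int.cast : ℤ → K)) =
      Matrix.of fun k m => (Matrix.of fun k m => μK (t₁ k) m : Matrix (Fin r) (Fin r) K) k m +
        ∑ l, (α k l : K) * (Matrix.of fun l m => μK (t₂ l) m : Matrix (Fin r) (Fin r) K) l m := by
    ext k m
    rw [Matrix.map_apply, Matrix.of_apply, hW k]
    simp [μK]
  have hdet : ((W.det : ℤ) : K) ≠ 0 := by
    rw [Int.cast_det, hWK]
    exact hα₁
  -- the inverse modulo p
  have hndvd : ¬ (p : ℤ) ∣ W.det := fun h => hdet ((CharP.intCast_eq_zero_iff K p _).2 h)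
  obtain ⟨u, s, hus⟩ : ∃ u s : ℤ, u * W.det = 1 + p * s := by
    have hco : IsCoprime W.det (p : ℤ) :=
      ((Nat.prime_iff_prime_int.1 hp).coprime_iff_not_dvd.2 hndvd).symm
    obtain ⟨a, b, hab⟩ := hco
    exact ⟨a, -b, by linarith⟩
  let M : Matrix (Fin r) (Fin r) ℤ := u • W.adjugate
  have hMW : M * W = (1 + p * s) • (1 : Matrix (Fin r) (Fin r) ℤ) := by
    change (u • W.adjugate) * W = _
    rw [Matrix.smul_mul, Matrix.adjugate_mul, smul_smul, hus]
  choose c hc using fun k : Fin r => hcoord (Pi.single k 1)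
  let e : Fin r → ι → ℤ := fun k j => (∑ l, M k l * e₀ l j) - p * s * c k j
  have hval : ∀ k, ∑ j, e k j • μ j = Pi.single k 1 := by
    intro k
    have h1 : ∀ j, e k j • μ j = (∑ l, M k l • (e₀ l j • μ j)) - (p * s) • (c k j • μ j) := by
      intro j
      simp only [e, sub_smul, Finset.sum_smul, mul_smul]
    rw [Finset.sum_congr rfl fun j _ => h1 j, Finset.sum_sub_distrib, Finset.sum_comm,
      ← Finset.smul_sum, hc k]
    have h2 : ∀ l, ∑ j, M k l • (e₀ l j • μ j) = M k l • W l := fun l => by
      rw [← Finset.smul_sum]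
      rfl
    rw [Finset.sum_congr rfl fun l _ => h2 l]
    have h3 : ∑ l, M k l • W l = (1 + p * s) • (Pi.single k 1 : Fin r → ℤ) := by
      ext m
      have h4 := congrFun (congrFun hMW k) m
      rw [Matrix.mul_apply] at h4
      simp only [Finset.sum_apply, Pi.smul_apply, smul_eq_mul]
      rw [h4]
      simp [Matrix.one_apply, Pi.single_apply, eq_comm]
    rw [h3, add_smul, one_smul, add_sub_cancel_right]
  -- the forms
  let D : Fin r → Om := fun k => ∑ j, (e₀ k j : K) • δ j
  have hD : ∀ k, D k = δ (t₁ k) + ∑ l, (α k l : K) • δ (t₂ l) := by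
    intro k
    have h1 : ∀ j, (e₀ k j : K) • δ j = ((Pi.single (t₁ k) (1 : ℤ) : ι → ℤ) j : K) • δ j +
        ∑ l, (α k l : K) • (((Pi.single (t₂ l) (1 : ℤ) : ι → ℤ) j : K) • δ j) := by
      intro j
      simp only [e₀, Pi.add_apply, Finset.sum_apply, Pi.smul_apply, smul_eq_mul, Int.cast_add,
        Int.cast_sum, Int.cast_mul, add_smul, Finset.sum_smul, mul_smul]
    change ∑ j, (e₀ k j : K) • δ j = _
    rw [Finset.sum_congr rfl fun j _ => h1 j, Finset.sum_add_distrib, Finset.sum_comm]
    congr 1
    · rw [Finset.sum_eq_single (t₁ k)]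
      · simp
      · intro b _ hb; simp [hb]
      · intro h; exact absurd (Finset.mem_univ _) h
    · refine Finset.sum_congr rfl fun l _ => ?_
      rw [← Finset.smul_sum]
      congr 1
      rw [Finset.sum_eq_single (t₂ l)]
      · simp
      · intro b _ hb; simp [hb]
      · intro h; exact absurd (Finset.mem_univ _) h
  have hDli : LinearIndependent K D := by
    refine LinearIndependent.of_comp g ?_
    have h1 : (g ∘ D) = (Matrix.of fun k m =>
        (Matrix.of fun k m => g (δ (t₁ k)) m : Matrix (Fin r) (Fin r) K) k m +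
          (α k m : K)).row := by
      ext k m
      simp only [Function.comp_apply, hD, map_add, map_sum, map_smul, hgd, Matrix.row,
        Matrix.of_apply, Pi.add_apply, Finset.sum_apply, Pi.smul_apply, smul_eq_mul]
      congr 1
      rw [Finset.sum_eq_single m]
      · simp
      · intro b _ hb; simp [Ne.symm hb]
      · intro h; exact absurd (Finset.mem_univ _) h
    rw [h1]
    exact Matrix.linearIndependent_rows_iff_isUnit.2
      ((Matrix.isUnit_iff_isUnit_det _).2 (isUnit_iff_ne_zero.2 hα₂))
  refine ⟨e, univ.image t₁ ∪ univ.image t₂, ?_, ?_, hval, ?_⟩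
  · refine (Finset.card_union_le _ _).trans ?_
    have h1 := Finset.card_image_le (s := (univ : Finset (Fin r))) (f := t₁)
    have h2 := Finset.card_image_le (s := (univ : Finset (Fin r))) (f := t₂)
    rw [Finset.card_univ, Fintype.card_fin] at h1 h2
    omega
  · intro k j hj
    rw [Finset.mem_union, not_or] at hj
    have h0 : ∀ l, e₀ l j = 0 := by
      intro l
      have h1 : t₁ l ≠ j := fun h => hj.1 (Finset.mem_image.2 ⟨l, Finset.mem_univ _, h⟩)
      have h2 : ∀ m, t₂ m ≠ j := fun m h => hj.2 (Finset.mem_image.2 ⟨m, Finset.mem_univ _, h⟩)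
      simp only [e₀, Pi.add_apply, Finset.sum_apply, Pi.smul_apply, smul_eq_mul]
      rw [Pi.single_eq_of_ne (Ne.symm h1), zero_add]
      refine Finset.sum_eq_zero fun m _ => ?_
      rw [Pi.single_eq_of_ne (Ne.symm (h2 m)), mul_zero]
    simp only [e, h0, mul_zero, Finset.sum_const_zero, zero_sub, dvd_neg]
    exact ⟨s * c k j, by ring⟩
  · -- independence
    have h1 : (fun k => ∑ j, (e k j : K) • δ j) = fun k => ∑ l, (M k l : K) • D l := by
      ext1 k
      have h2 : ∀ j, (e k j : K) • δ j = ∑ l, (M k l : K) • ((e₀ l j : K) • δ j) := by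
        intro j
        have hp0 : ((p : ℤ) : K) = 0 := by
          rw [Int.cast_natCast]; exact CharP.cast_eq_zero K p
        simp only [e, Int.cast_sub, Int.cast_sum, Int.cast_mul, hp0, zero_mul, sub_zero,
          Finset.sum_smul, mul_smul]
      rw [Finset.sum_congr rfl fun j _ => h2 j, Finset.sum_comm]
      refine Finset.sum_congr rfl fun l _ => ?_
      rw [← Finset.smul_sum]
    rw [h1]
    -- M is invertible over K
    have hMK : (M.map (Int.cast : ℤ → K)) * (W.map (Int.cast : ℤ → K)) = 1 := by
      have h2 : (M * W).map (Int.cast : ℤ → K) =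
          M.map (Int.cast : ℤ → K) * W.map (Int.cast : ℤ → K) := by
        ext i j
        simp [Matrix.mul_apply, Matrix.map_apply]
      rw [← h2, hMW]
      ext i j
      have hp0 : ((p : ℤ) : K) = 0 := by
        rw [Int.cast_natCast]; exact CharP.cast_eq_zero K p
      rw [Matrix.map_apply, Matrix.smul_apply, smul_eq_mul, Int.cast_mul, Int.cast_add,
        Int.cast_mul, hp0, zero_mul, Int.cast_one, add_zero, one_mul, Matrix.one_apply,
        Matrix.one_apply]
      split_ifs <;> simp
    rw [Fintype.linearIndependent_iff]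
    intro a ha
    have h2 : ∑ l, (∑ k, a k * (M k l : K)) • D l = 0 := by
      rw [← ha]
      simp only [Finset.smul_sum, Finset.sum_smul, smul_smul]
      exact Finset.sum_comm
    have h3 := (Fintype.linearIndependent_iff.1 hDli) _ h2
    have h4 : Matrix.vecMul a (M.map (Int.cast : ℤ → K)) = 0 := by
      ext l
      exact h3 l
    have h5 : Matrix.vecMul (Matrix.vecMul a (M.map (Int.cast : ℤ → K)))
        (W.map (Int.cast : ℤ → K)) = a := by
      rw [Matrix.vecMul_vecMul, hMK, Matrix.vecMul_one]
    rw [h4, Matrix.zero_vecMul] at h5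
    intro k
    exact congrFun h5.symm k

end Pool.Agent.ALLh85
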